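import Mathlib

set_option autoImplicit false

namespace Pool.Agent.H.MP_a4a5b6_lc

open Set Filter Topology

/-- stretch the half line to the right of `a` by the factor `n + 1` -/
noncomputable def pi0 (a : ℚ) (n : ℕ) : ℚ ≃o ℚ :=
  StrictMono.orderIsoOfSurjective (fun t => t + n * max (t - a) 0)
    (fun s t h => add_lt_add_of_lt_of_le h (by gcongr))
    (fun s => by
      rcases le_total s a with h | h
      · exact ⟨s, by simp [h]⟩
      · refine ⟨a + (s - a) / (n + 1), ?_⟩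
        have : 0 ≤ (s - a) / (n + 1) := div_nonneg (by linarith) (by positivity)
        simp only [add_sub_cancel_left, max_eq_left this]
        field_simp; ring)

theorem pi0_apply (a : ℚ) (n : ℕ) (t : ℚ) : pi0 a n t = t + n * max (t - a) 0 := rfl

def Γ : Subgroup (ℚ ≃o ℚ) := Subgroup.closure (range fun p : ℚ × ℕ => pi0 p.1 p.2)

theorem Γ_countable : (Γ : Set (ℚ ≃o ℚ)).Countable := by
  rw [Γ, ← FreeGroup.range_lift_eq_closure, MonoidHom.coe_range]
  exact countable_range _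

def Ag (x : ℚ) (f g : ℚ ≃o ℚ) : Prop := ∀ t ≤ x, f t = g t

theorem Ag.refl (x : ℚ) (f : ℚ ≃o ℚ) : Ag x f f := fun _ _ => rfl
theorem Ag.symm {x : ℚ} {f g : ℚ ≃o ℚ} (h : Ag x f g) : Ag x g f := fun t ht => (h t ht).symm
theorem Ag.trans {x : ℚ} {f g k : ℚ ≃o ℚ} (h : Ag x f g) (h' : Ag x g k) : Ag x f k :=
  fun t ht => (h t ht).trans (h' t ht)
theorem Ag.mono {x y : ℚ} {f g : ℚ ≃o ℚ} (h : Ag x f g) (hy : y ≤ x) : Ag y f g :=
  fun t ht => h t (ht.trans hy)
theorem Ag.mul {x y : ℚ} {f g f' g' : ℚ ≃o ℚ} (h : Ag x f f') (h' : Ag y g g') (e : g' y ≤ x) :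
    Ag y (f * g) (f' * g') := fun t ht => by
  simp only [RelIso.mul_apply]
  rw [h' t ht, h _ ((g'.monotone ht).trans e)]
theorem Ag.inv {x y : ℚ} {f g : ℚ ≃o ℚ} (h : Ag x f g) (e : y ≤ g x) : Ag y f⁻¹ g⁻¹ :=
  fun t ht => by
    have : g⁻¹ t ≤ x := g.le_iff_le.1 (by simpa using ht.trans e)
    apply f.injective
    rw [h _ this]; simp

def G : Subgroup (ℚ ≃o ℚ) where
  carrier := {f | ∀ x, ∃ γ ∈ Γ, Ag x f γ}
  one_mem' := fun x => ⟨1, one_mem _, .refl _ _⟩
  mul_mem' := fun {f g} hf hg x => by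
    obtain ⟨b, hb, e⟩ := hg x
    obtain ⟨a, ha, e'⟩ := hf (b x)
    exact ⟨a * b, mul_mem ha hb, e'.mul e le_rfl⟩
  inv_mem' := fun {f} hf x => by
    obtain ⟨a, ha, e⟩ := hf (f⁻¹ x)
    exact ⟨a⁻¹, inv_mem ha, e.inv (by rw [← e _ le_rfl]; simp)⟩

noncomputable def pi1 (a : ℚ) (n : ℕ) : G :=
  ⟨pi0 a n, fun _ => ⟨_, Subgroup.subset_closure ⟨(a, n), rfl⟩, .refl _ _⟩⟩

theorem exists_code : ∃ c : ℚ → G → ℕ, ∀ x f g, c x f = c x g ↔ Ag x f.1 g.1 := by
  obtain ⟨e, he⟩ := countable_iff_exists_injOn.1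
    (Γ_countable.image2 countable_univ fun γ (x t : ℚ) => γ (min t x))
  have m : ∀ x (f : G), (fun t => f.1 (min t x)) ∈
      image2 (fun (γ : ℚ ≃o ℚ) (x t : ℚ) => γ (min t x)) Γ univ := fun x f => by
    obtain ⟨γ, h, e⟩ := f.2 x
    exact ⟨γ, h, x, trivial, funext fun t => (e _ (min_le_right _ _)).symm⟩
  refine ⟨fun x f => e fun t => f.1 (min t x), fun x f g => ⟨fun h t ht => ?_, fun h => ?_⟩⟩
  · simpa [ht] using congrFun (he (m x f) (m x g) h) t
  · exact congrArg e (funext fun t => h _ (min_le_right _ _))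

noncomputable def ι (f : G) (x : ℚ) : ℕ × ℕ := (exists_code.choose x f, exists_code.choose x f⁻¹)

theorem ι_eq {f g : G} {x : ℚ} : ι f x = ι g x ↔ Ag x f.1 g.1 ∧ Ag x f.1⁻¹ g.1⁻¹ := by
  simp only [ι, Prod.mk.injEq, exists_code.choose_spec]; rfl

noncomputable instance : TopologicalSpace G := .induced ι inferInstance

theorem ind : IsInducing ι := ⟨rfl⟩

theorem tend {α : Type} {F : Filter α} {u : α → G} {f : G} :
    Tendsto u F (𝓝 f) ↔ ∀ x, ∀ᶠ a in F, Ag x (u a).1 f.1 := by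
  rw [ind.tendsto_nhds_iff, tendsto_pi_nhds]
  simp only [nhds_discrete, tendsto_pure, Function.comp, ι_eq]
  refine ⟨fun h x => (h x).mono fun _ h => h.1, fun h x => ((h x).and (h (f.1⁻¹ x))).mono
    fun _ h => ⟨h.1, h.2.inv (by simp)⟩⟩

theorem basis (f : G) : (𝓝 f).HasBasis (fun _ : ℚ => True) fun x => {g | Ag x g.1 f.1} := by
  have : 𝓝 f = ⨅ x : ℚ, 𝓟 {g | Ag x g.1 f.1} := le_antisymm
    (le_iInf fun x => le_principal_iff.2 (tend.1 tendsto_id x))
    (tend (u := id).2 fun x => mem_iInf_of_mem x (mem_principal_self _))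
  rw [this]
  exact hasBasis_iInf_principal (directed_of_isDirected_le fun a b h g hg => Ag.mono hg h)

instance : IsTopologicalGroup G where
  continuous_mul := continuous_iff_continuousAt.2 fun p => tend.2 fun x =>
    ((tend.1 continuousAt_fst (p.2.1 x)).and (tend.1 continuousAt_snd x)).mono
      fun _ h => h.1.mul h.2 le_rfl
  continuous_inv := continuous_iff_continuousAt.2 fun p => tend.2 fun x =>
    (tend.1 tendsto_id (p.1⁻¹ x)).mono fun _ h => Ag.inv h (by simp)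

theorem lim {α : Type} {F : Filter α} [F.NeBot] {u : α → G}
    (H : ∀ x, ∃ f : G, ∀ᶠ a in F, Ag x (u a).1 f.1 ∧ Ag x (u a).1⁻¹ f.1⁻¹) :
    ∃ g, Tendsto u F (𝓝 g) := by
  choose f hf using H
  have mono : StrictMono fun t => (f t).1 t := fun s t h => by
    obtain ⟨a, h1, h2⟩ := ((hf s).and (hf t)).exists
    simp only [← h1.1 s le_rfl, ← h2.1 t le_rfl]
    exact (u a).1.strictMono h
  have surj : Function.Surjective fun t => (f t).1 t := fun s => by
    obtain ⟨a, h1, h2⟩ := ((hf s).and (hf ((f s).1⁻¹ s))).exists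
    refine ⟨(f s).1⁻¹ s, ?_⟩
    simp only
    rw [← h2.1 _ le_rfl, ← h1.2 s le_rfl]; simp
  have ag : ∀ x, Ag x (f x).1 (mono.orderIsoOfSurjective _ surj) := fun x t ht => by
    obtain ⟨a, h1, h2⟩ := ((hf x).and (hf t)).exists
    exact (h1.1 t ht).symm.trans (h2.1 t le_rfl)
  refine ⟨⟨mono.orderIsoOfSurjective _ surj, fun x => ?_⟩,
    tend.2 fun x => (hf x).mono fun a h => h.1.trans (ag x)⟩
  obtain ⟨γ, h, e⟩ := (f x).2 x
  exact ⟨γ, h, (ag x).symm.trans e⟩

instance : PolishSpace G := by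
  refine IsClosedEmbedding.polishSpace (f := ι) ⟨⟨ind, fun f g h => ?_⟩, ?_⟩
  · ext t
    exact (ι_eq.1 (congrFun h t)).1 t le_rfl
  · refine isClosed_of_closure_subset fun u hu => ?_
    have : (comap ι (𝓝 u)).NeBot := comap_neBot_iff_frequently.2 (mem_closure_iff_frequently.1 hu)
    have t : Tendsto ι (comap ι (𝓝 u)) (𝓝 u) := tendsto_comap
    obtain ⟨g, hg⟩ := lim (F := comap ι (𝓝 u)) (u := id) fun x => by
      have := tendsto_pi_nhds.1 t x
      rw [nhds_discrete (ℕ × ℕ), tendsto_pure] at this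
      obtain ⟨f, hf⟩ := this.exists
      exact ⟨f, this.mono fun a h => ι_eq.1 (h.trans hf.symm)⟩
    exact ⟨g, tendsto_nhds_unique ((ind.continuous.tendsto g).comp hg) t⟩

instance : Uncountable G := ⟨fun h => by
  have := dense_iInter_of_isOpen (f := fun f : G => ({f}ᶜ : Set G))
    (fun _ => isOpen_compl_singleton) fun f g => by
      rcases ne_or_eq g f with h | rfl
      · exact subset_closure h
      refine (mem_closure_iff_nhds_basis' (basis g)).2 fun x _ =>
        ⟨g * pi1 x 1, fun t ht => ?_, fun e => ?_⟩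
      · simp [pi1, pi0_apply, ht]
      · have := congrArg (fun k : G => k.1 (x + 1)) (mul_eq_left.1 e)
        simp [pi1, pi0_apply] at this
  obtain ⟨f, hf⟩ := this.nonempty
  exact mem_iInter.1 hf f rfl⟩

end Pool.Agent.H.MP_a4a5b6_lc
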