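import Pool.Agent.H.MP_a4a5b6_lc.A

set_option autoImplicit false

namespace Pool.Agent.H.MP_a4a5b6_lc

open Set Filter Topology

structure St where
  g : G
  h : G
  z : ℚ
  y : ℚ

def Le (s s' : St) : Prop := s.z ≤ s'.z ∧ s.y ≤ s'.y ∧ Ag s.z s'.g.1 s.g.1 ∧ Ag s.y s'.h.1 s.h.1

theorem Le.refl (s : St) : Le s s := ⟨le_rfl, le_rfl, .refl _ _, .refl _ _⟩

theorem Le.trans {a b c : St} (h : Le a b) (h' : Le b c) : Le a c :=
  ⟨h.1.trans h'.1, h.2.1.trans h'.2.1, (h'.2.2.1.mono h.1).trans h.2.2.1,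
    (h'.2.2.2.mono h.2.1).trans h.2.2.2⟩

def Good (U : Set G) (s : St) (f : G) : Prop :=
  ∀ g h : G, Ag s.z g.1 s.g.1 → Ag s.y h.1 s.h.1 → g * f * h ∈ U

theorem Good.mono {U : Set G} {s s' : St} {f : G} (h : Good U s f) (e : Le s s') : Good U s' f :=
  fun g k a b => h g k ((a.mono e.1).trans e.2.2.1) ((b.mono e.2.1).trans e.2.2.2)

theorem step {U : Set G} (ho : IsOpen U) (hd : Dense U) (X : ℚ) (a : G) (s : St)
    (h1 : s.h.1 s.y < X) (h2 : s.z < a.1 X) :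
    ∃ s', Le s s' ∧ s'.h.1 s'.y < X ∧ s'.z < a.1 X ∧ ∀ f : G, Ag X f.1 a.1 → Good U s' f := by
  obtain ⟨g, h, z, y⟩ := s
  simp only at h1 h2
  obtain ⟨c, c1, c2⟩ := (mem_closure_iff_nhds_basis' (basis (g * a * h))).1 (hd _) y trivial
  obtain ⟨y0, -, c3⟩ := (basis c).mem_iff.1 (ho.mem_nhds c2)
  obtain ⟨z1, e1, e2, e3⟩ : ∃ z1, z ≤ z1 ∧ a.1 (h.1 y) ≤ z1 ∧ z1 < a.1 X :=
    ⟨max z (a.1 (h.1 y)), le_max_left _ _, le_max_right _ _, max_lt h2 (a.1.strictMono h1)⟩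
  obtain ⟨z2, e4, e5⟩ := exists_between e3
  obtain ⟨n, hn⟩ := exists_nat_ge ((g.1⁻¹ (c.1 (max y y0)) - z2) / (z2 - z1))
  have p1 : Ag z1 (pi1 z1 n).1 1 := fun t ht => by simp [pi1, pi0_apply, ht]
  have p2 : g.1⁻¹ (c.1 (max y y0)) ≤ (pi1 z1 n).1 z2 := by
    rw [div_le_iff₀ (by linarith)] at hn
    simp only [pi1, pi0_apply, max_eq_left (sub_nonneg.2 e4.le)]
    linarith
  generalize pi1 z1 n = p at p1 p2
  have q : a.1 ((a⁻¹ * p⁻¹ * g⁻¹ * c).1 (max y y0)) ≤ z2 := p.1.le_iff_le.1 (by simpa using p2)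
  have q' : (a⁻¹ * p⁻¹ * g⁻¹ * c).1 (max y y0) < X := a.1.lt_iff_lt.1 (q.trans_lt e5)
  refine ⟨⟨g * p, a⁻¹ * p⁻¹ * g⁻¹ * c, z2, max y y0⟩, ⟨e1.trans e4.le, le_max_left _ _,
    fun t ht => ?_, fun t ht => ?_⟩, q', e5, fun f hf g' h' a1 a2 => c3 ?_⟩
  · simpa using p1 t (ht.trans e1)
  · have b1 := c1 t ht
    have b2 := p1.inv (y := z1) le_rfl _ ((a.1.monotone (h.1.monotone ht)).trans e2)
    simp only [Subgroup.coe_mul, RelIso.mul_apply, InvMemClass.coe_inv, inv_one,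
      RelIso.one_apply] at b1 b2 ⊢
    rw [b1, RelIso.inv_apply_self, b2, RelIso.inv_apply_self]
  · have := (a1.mul (hf.mul a2 q'.le) q).mono (le_max_right _ _)
    simpa [mul_assoc] using this

theorem sweep {U : Set G} (ho : IsOpen U) (hd : Dense U) (X : ℚ) (T : Finset G) :
    ∀ s : St, s.h.1 s.y < X → (∀ a ∈ T, s.z < a.1 X) →
      ∃ s', Le s s' ∧ ∀ a ∈ T, ∀ f : G, Ag X f.1 a.1 → Good U s' f := by
  classical
  induction T using Finset.induction_on_min_value fun f : G => f.1 X with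
  | empty => exact fun s _ _ => ⟨s, .refl _, by simp⟩
  | insert a T _ hm ih =>
    intro s h1 h2
    obtain ⟨s1, l1, b1, b2, b3⟩ := step ho hd X a s h1 (h2 a (by simp))
    obtain ⟨s2, l2, b4⟩ := ih s1 b1 fun b hb => b2.trans_le (hm b hb)
    refine ⟨s2, l1.trans l2, fun b hb f hf => ?_⟩
    rcases Finset.mem_insert.1 hb with rfl | hb
    · exact (b3 f hf).mono l2
    · exact b4 b hb f hf

theorem stage {U K : Set G} (ho : IsOpen U) (hd : Dense U) (hK : IsCompact K) (s : St) (k : ℚ) :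
    ∃ s', Le s s' ∧ (k ≤ s'.z ∧ k ≤ s'.g.1 s'.z) ∧ (k ≤ s'.y ∧ k ≤ s'.h.1 s'.y) ∧
      ∀ f ∈ K, Good U s' f := by
  have w : ∀ (z : ℚ) (g : ℚ ≃o ℚ), ∃ z', z ≤ z' ∧ k ≤ z' ∧ k ≤ g z' := fun z g =>
    ⟨max z (max k (g⁻¹ k)), by simp, by simp,
      (le_of_eq (by simp)).trans (g.monotone ((le_max_right k _).trans (le_max_right z _)))⟩
  obtain ⟨z, z1, z2, z3⟩ := w s.z s.g.1
  obtain ⟨y, y1, y2, y3⟩ := w s.y s.h.1
  have e : ∀ᶠ X in atTop, ∀ f ∈ K, z < f.1 X := by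
    refine hK.induction_on (p := fun S => ∀ᶠ X in atTop, ∀ f ∈ S, z < f.1 X) (by simp)
      (fun _ _ h h' => h'.mono fun _ a f hf => a f (h hf))
      (fun _ _ h h' => (h.and h').mono fun _ a f hf => hf.elim (a.1 f) (a.2 f)) fun f _ => ?_
    refine ⟨_, mem_nhdsWithin_of_mem_nhds ((basis f).mem_of_mem (i := f.1⁻¹ (z + 1)) trivial),
      (eventually_ge_atTop (f.1⁻¹ (z + 1))).mono fun X hX g hg => ?_⟩
    refine lt_of_lt_of_le ?_ (g.1.monotone hX)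
    rw [hg _ le_rfl]; simp
  obtain ⟨X, X1, X2⟩ := (e.and (eventually_gt_atTop (s.h.1 y))).exists
  obtain ⟨T, T1, T2⟩ := hK.elim_nhds_subcover _ fun f _ => (basis f).mem_of_mem (i := X) trivial
  obtain ⟨s', l, b⟩ := sweep ho hd X T ⟨s.g, s.h, z, y⟩ X2 fun a ha => X1 a (T1 a ha)
  refine ⟨s', Le.trans (b := ⟨s.g, s.h, z, y⟩) ⟨z1, y1, .refl _ _, .refl _ _⟩ l,
    ⟨z2.trans l.1, (z3.trans_eq (l.2.2.1 z le_rfl).symm).trans (s'.g.1.monotone l.1)⟩,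
    ⟨y2.trans l.2.1, (y3.trans_eq (l.2.2.2 y le_rfl).symm).trans (s'.h.1.monotone l.2.1)⟩,
    fun f hf => ?_⟩
  obtain ⟨a, ha, hf⟩ := mem_iUnion₂.1 (T2 hf)
  exact b a ha f hf

theorem lim2 (g : ℕ → G) (z : ℕ → ℚ) (h1 : ∀ m n, m ≤ n → Ag (z m) (g n).1 (g m).1)
    (h2 : ∀ k : ℕ, k ≤ z (k + 1) ∧ k ≤ (g (k + 1)).1 (z (k + 1))) :
    ∃ f : G, ∀ m, Ag (z m) f.1 (g m).1 := by
  obtain ⟨f, hf⟩ := lim (F := atTop) (u := g) fun x => by
    obtain ⟨k, hk⟩ := exists_nat_ge x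
    exact ⟨g (k + 1), (eventually_ge_atTop (k + 1)).mono fun n hn =>
      ⟨(h1 _ _ hn).mono (hk.trans (h2 k).1), (h1 _ _ hn).inv (hk.trans (h2 k).2)⟩⟩
  refine ⟨f, fun m => ?_⟩
  obtain ⟨n, a, b⟩ := ((tend.1 hf (z m)).and (eventually_ge_atTop m)).exists
  exact a.symm.trans (h1 _ _ b)

theorem catcher {K : Set G} (hK : IsCompact K) (U : ℕ → Set G) (ho : ∀ k, IsOpen (U k))
    (hd : ∀ k, Dense (U k)) : ∃ g h : G, ∀ f ∈ K, ∀ k, g * f * h ∈ U k := by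
  choose F F1 F2 F3 F4 using fun (k : ℕ) s => stage (ho k) (hd k) hK s k
  let s : ℕ → St := fun n => Nat.rec ⟨1, 1, 0, 0⟩ F n
  have l : ∀ m n, m ≤ n → Le (s m) (s n) := fun m n h => by
    induction h with
    | refl => exact .refl _
    | step _ ih => exact ih.trans (F1 _ _)
  obtain ⟨g, hg⟩ := lim2 (fun n => (s n).g) (fun n => (s n).z) (fun m n h => (l m n h).2.2.1)
    fun k => F2 k (s k)
  obtain ⟨h, hh⟩ := lim2 (fun n => (s n).h) (fun n => (s n).y) (fun m n h => (l m n h).2.2.2)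
    fun k => F3 k (s k)
  exact ⟨g, h, fun f hf k => F4 k (s k) f hf g h (hg (k + 1)) (hh (k + 1))⟩

end Pool.Agent.H.MP_a4a5b6_lc
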